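import Pool.Agent.H3.EJ.Sb

/-!
# [H3 EJ Pat] patterns of quadratic residues, from Stepanov's bound

`pattern`: for `p ≥ p0(R)`, every set `T ⊆ F_p` with at most `R` elements and all signs `e r`, `r ∈ T`, there is `s` with `χ(s - r) = e r` for all `r ∈ T`.
-/

set_option autoImplicit false

namespace Pool.Agent.H3.EJ

open Polynomial Finset

variable {p : ℕ} [Fact p.Prime]

/-- the character sum -/
theorem char_sum (R : ℕ) (hp : 64 * (R + 1) ^ 2 ≤ p) (I : Finset (ZMod p)) (hI : I.card ≤ R)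
    (hne : I.Nonempty) (h0 : (0 : ZMod p) ∉ I) :
    |((∑ s : ZMod p, ∏ r ∈ I, quadraticChar (ZMod p) (s - r) : ℤ) : ℝ)| ≤ 20 * (R + 1) * √(p : ℝ) + R := by
  classical
  have hpp : p.Prime := Fact.out
  have hp2 : p ≠ 2 := by nlinarith
  have hp3 : 2 < p := lt_of_le_of_ne hpp.two_le hp2.symm
  obtain ⟨f, hf⟩ : ∃ f : (ZMod p)[X], f = ∏ r ∈ I, (X - C r) := ⟨_, rfl⟩
  have hfm : f.Monic := by rw [hf]; exact monic_prod_of_monic _ _ fun a _ => monic_X_sub_C a
  have hfd : f.natDegree = I.card := by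
    rw [hf, natDegree_prod_of_monic _ _ fun a _ => monic_X_sub_C a]
    simp
  have hfe : ∀ x, f.eval x = ∏ r ∈ I, (x - r) := by
    intro x
    rw [hf, eval_prod]
    simp
  have hf0 : f.coeff 0 ≠ 0 := by
    rw [coeff_zero_eq_eval_zero, hfe, Finset.prod_ne_zero_iff]
    intro r hr h
    rw [zero_sub, neg_eq_zero] at h
    exact h0 (h ▸ hr)
  have hsf : Squarefree f := by
    rw [hf]
    exact (separable_prod_X_sub_C_iff'.2 (by intro x _ y _ h; exact h)).squarefree
  have hsq : ∀ (c : ZMod p) (h : (ZMod p)[X]), f ≠ C c * h ^ 2 := by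
    intro c h hh
    have h1 : IsUnit h := hsf h ⟨C c, by rw [hh]; ring⟩
    have h2 : f.natDegree = 0 := by
      rw [hh]
      have h3 := natDegree_eq_zero_of_isUnit h1
      have h4 : (C c * h ^ 2).natDegree ≤ 0 + 2 * 0 :=
        natDegree_mul_le.trans (Nat.add_le_add (natDegree_C c).le (natDegree_pow_le.trans (by rw [h3])))
      omega
    rw [hfd, Finset.card_eq_zero] at h2
    rw [h2] at hne
    exact Finset.not_nonempty_empty hne
  have hst := fun a => stepanov R hp hf0 hsq (hfd.le.trans hI) a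
  -- the character as a power
  have hchar : ringChar (ZMod p) ≠ 2 := by rwa [ZMod.ringChar_zmod_n]
  have hhalf : Fintype.card (ZMod p) / 2 = (p - 1) / 2 := by
    rw [ZMod.card]
    have := hpp.eq_two_or_odd
    omega
  have hpow : ∀ x : ZMod p, ((quadraticChar (ZMod p) (f.eval x) : ℤ) : ZMod p) = f.eval x ^ ((p - 1) / 2) := by
    intro x
    rw [quadraticChar_eq_pow_of_char_ne_two' hchar, hhalf]
  have hprod : ∀ x : ZMod p, ∏ r ∈ I, quadraticChar (ZMod p) (x - r) = quadraticChar (ZMod p) (f.eval x) := by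
    intro x
    rw [hfe, map_prod]
  obtain ⟨A, hA⟩ : ∃ A, A = Finset.univ.filter fun x : ZMod p => f.eval x ^ ((p - 1) / 2) = 1 := ⟨_, rfl⟩
  obtain ⟨B, hB⟩ : ∃ B, B = Finset.univ.filter fun x : ZMod p => f.eval x ^ ((p - 1) / 2) = -1 := ⟨_, rfl⟩
  have hA1 := hst 1
  have hB1 := hst (-1)
  rw [← hA] at hA1
  rw [← hB] at hB1
  have h2ne : (2 : ZMod p) ≠ 0 := by
    intro h
    have h1 : ((2 : ℕ) : ZMod p) = 0 := by exact_mod_cast h
    rw [ZMod.natCast_eq_zero_iff] at h1
    have := Nat.le_of_dvd two_pos h1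
    omega
  have hval : ∀ x : ZMod p, quadraticChar (ZMod p) (f.eval x) =
      (if x ∈ A then 1 else 0) - (if x ∈ B then 1 else 0) := by
    intro x
    rw [hA, hB]
    simp only [Finset.mem_filter, Finset.mem_univ, true_and]
    have h1 := hpow x
    by_cases hx : f.eval x = 0
    · rw [hx] at h1 ⊢
      rw [quadraticChar_zero, Int.cast_zero] at h1
      rw [← h1]
      simp
    · rcases quadraticChar_dichotomy hx with h3 | h3
      · rw [h3] at h1 ⊢
        rw [← h1, Int.cast_one, if_pos rfl, if_neg]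
        · norm_num
        · intro h4
          apply h2ne
          linear_combination h4
      · rw [h3] at h1 ⊢
        rw [← h1, Int.cast_neg, Int.cast_one, if_neg, if_pos rfl]
        · norm_num
        · intro h4
          apply h2ne
          linear_combination -h4
  have hsum : (∑ s : ZMod p, ∏ r ∈ I, quadraticChar (ZMod p) (s - r) : ℤ) = A.card - B.card := by
    rw [Finset.sum_congr rfl fun x _ => (hprod x).trans (hval x), Finset.sum_sub_distrib]
    simp
  have htot : (p : ℤ) ≤ A.card + B.card + I.card := by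
    have h1 : (Finset.univ : Finset (ZMod p)) ⊆ A ∪ B ∪ I := by
      intro x _
      by_cases hx : f.eval x = 0
      · rw [hfe, Finset.prod_eq_zero_iff] at hx
        obtain ⟨r, hr, h2⟩ := hx
        rw [sub_eq_zero] at h2
        rw [h2]
        exact Finset.mem_union_right _ hr
      · refine Finset.mem_union_left _ (Finset.mem_union.2 ?_)
        have h1 := hpow x
        rcases quadraticChar_dichotomy hx with h3 | h3
        · left
          rw [hA, Finset.mem_filter]
          refine ⟨Finset.mem_univ _, ?_⟩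
          rw [← h1, h3, Int.cast_one]
        · right
          rw [hB, Finset.mem_filter]
          refine ⟨Finset.mem_univ _, ?_⟩
          rw [← h1, h3, Int.cast_neg, Int.cast_one]
    have h2 := (Finset.card_le_card h1).trans ((Finset.card_union_le _ _).trans
      (Nat.add_le_add_right (Finset.card_union_le _ _) _))
    rw [Finset.card_univ, ZMod.card] at h2
    exact_mod_cast h2
  have htot' : (p : ℝ) ≤ A.card + B.card + R := by
    have h1 : (p : ℝ) ≤ A.card + B.card + I.card := by exact_mod_cast htot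
    have h2 : (I.card : ℝ) ≤ R := by exact_mod_cast hI
    linarith
  have hle : (A.card + B.card : ℝ) ≤ p := by
    have h1 : Disjoint A B := by
      rw [Finset.disjoint_left, hA, hB]
      intro x h1 h2
      rw [Finset.mem_filter] at h1 h2
      apply h2ne
      linear_combination h1.2.symm.trans h2.2
    have h2 := Finset.card_le_univ (A ∪ B)
    rw [Finset.card_union_of_disjoint h1, ZMod.card] at h2
    exact_mod_cast h2
  rw [hsum, abs_le]
  push_cast
  constructor <;> linarith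

theorem pattern0 (R : ℕ) (hp : (2 ^ R * (22 * (R + 1))) ^ 2 + 1 ≤ p) (T : Finset (ZMod p)) (hT : T.card ≤ R)
    (h0 : (0 : ZMod p) ∉ T) (e : ZMod p → ℤ) (he : ∀ r ∈ T, e r = 1 ∨ e r = -1) :
    ∃ s : ZMod p, ∀ r ∈ T, quadraticChar (ZMod p) (s - r) = e r := by
  classical
  by_contra hno
  push Not at hno
  have hpow1 : 1 ≤ 2 ^ R := Nat.one_le_two_pow
  have hp64 : 64 * (R + 1) ^ 2 ≤ p := by
    have h1 : 22 * (R + 1) ≤ 2 ^ R * (22 * (R + 1)) := Nat.le_mul_of_pos_left _ (by omega)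
    have h2 : (22 * (R + 1)) ^ 2 ≤ (2 ^ R * (22 * (R + 1))) ^ 2 := Nat.pow_le_pow_left h1 2
    nlinarith
  -- upper bound
  have hfac : ∀ s r : ZMod p, r ∈ T → (0 : ℤ) ≤ 1 + e r * quadraticChar (ZMod p) (s - r) ∧
      1 + e r * quadraticChar (ZMod p) (s - r) ≤ 2 := by
    intro s r hr
    by_cases h1 : s - r = 0
    · rw [h1, quadraticChar_zero]
      norm_num
    · rcases he r hr with h2 | h2 <;> rcases quadraticChar_dichotomy h1 with h3 | h3 <;> rw [h2, h3] <;> norm_num
  have hup : ∑ s : ZMod p, ∏ r ∈ T, (1 + e r * quadraticChar (ZMod p) (s - r)) ≤ (R * 2 ^ R : ℕ) := by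
    have h1 : ∀ s : ZMod p, ∏ r ∈ T, (1 + e r * quadraticChar (ZMod p) (s - r)) ≤
        if s ∈ T then (2 : ℤ) ^ R else 0 := by
      intro s
      by_cases hs : s ∈ T
      · rw [if_pos hs]
        calc ∏ r ∈ T, (1 + e r * quadraticChar (ZMod p) (s - r)) ≤ ∏ _r ∈ T, (2 : ℤ) :=
              Finset.prod_le_prod (fun r hr => (hfac s r hr).1) fun r hr => (hfac s r hr).2
          _ = 2 ^ T.card := by rw [Finset.prod_const]
          _ ≤ 2 ^ R := pow_le_pow_right₀ (by norm_num) hT
      · rw [if_neg hs]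
        obtain ⟨r, hr, h2⟩ := hno s
        refine le_of_eq (Finset.prod_eq_zero hr ?_)
        have h3 : s - r ≠ 0 := by
          rw [sub_ne_zero]
          rintro rfl
          exact hs hr
        rcases he r hr with h4 | h4 <;> rcases quadraticChar_dichotomy h3 with h5 | h5
        · exact absurd (h5.trans h4.symm) h2
        · rw [h4, h5]; norm_num
        · rw [h4, h5]; norm_num
        · exact absurd (h5.trans h4.symm) h2
    refine (Finset.sum_le_sum fun s _ => h1 s).trans ?_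
    rw [Finset.sum_ite_mem, Finset.univ_inter, Finset.sum_const, nsmul_eq_mul]
    push_cast
    exact mul_le_mul_of_nonneg_right (by exact_mod_cast hT) (by positivity)
  -- the expansion
  have hexp : ∑ s : ZMod p, ∏ r ∈ T, (1 + e r * quadraticChar (ZMod p) (s - r)) =
      ∑ I ∈ T.powerset, (∏ r ∈ I, e r) * ∑ s : ZMod p, ∏ r ∈ I, quadraticChar (ZMod p) (s - r) := by
    have h1 : ∀ s : ZMod p, ∏ r ∈ T, (1 + e r * quadraticChar (ZMod p) (s - r)) =
        ∑ I ∈ T.powerset, (∏ r ∈ I, e r) * ∏ r ∈ I, quadraticChar (ZMod p) (s - r) := by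
      intro s
      rw [Finset.prod_one_add]
      refine Finset.sum_congr rfl fun I _ => ?_
      rw [Finset.prod_mul_distrib]
    rw [Finset.sum_congr rfl fun s _ => h1 s, Finset.sum_comm]
    refine Finset.sum_congr rfl fun I _ => ?_
    rw [Finset.mul_sum]
  have hq1 : (1 : ℝ) ≤ √(p : ℝ) := by
    rw [Real.one_le_sqrt]
    exact_mod_cast (Fact.out : p.Prime).one_lt.le
  have hlow : (p : ℝ) - 2 ^ R * (20 * (R + 1) * √(p : ℝ) + R) ≤
      ((∑ s : ZMod p, ∏ r ∈ T, (1 + e r * quadraticChar (ZMod p) (s - r)) : ℤ) : ℝ) := by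
    rw [hexp, ← Finset.add_sum_erase _ _ (Finset.empty_mem_powerset T)]
    have h1 : ((∏ r ∈ (∅ : Finset (ZMod p)), e r) *
        ∑ s : ZMod p, ∏ r ∈ (∅ : Finset (ZMod p)), quadraticChar (ZMod p) (s - r) : ℤ) = p := by
      simp [ZMod.card]
    rw [h1, Int.cast_add, Int.cast_natCast, Int.cast_sum]
    have hb0 : (0 : ℝ) ≤ 20 * (R + 1) * √(p : ℝ) + R := by positivity
    have h2 : |∑ I ∈ T.powerset.erase ∅, (((∏ r ∈ I, e r) *
        ∑ s : ZMod p, ∏ r ∈ I, quadraticChar (ZMod p) (s - r) : ℤ) : ℝ)| ≤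
        2 ^ R * (20 * (R + 1) * √(p : ℝ) + R) := by
      refine (Finset.abs_sum_le_sum_abs _ _).trans ?_
      have h3 : ∀ I ∈ T.powerset.erase ∅, |(((∏ r ∈ I, e r) *
          ∑ s : ZMod p, ∏ r ∈ I, quadraticChar (ZMod p) (s - r) : ℤ) : ℝ)| ≤ 20 * (R + 1) * √(p : ℝ) + R := by
        intro I hI
        rw [Finset.mem_erase, Finset.mem_powerset] at hI
        have h4 := char_sum R hp64 I ((Finset.card_le_card hI.2).trans hT)
          (Finset.nonempty_iff_ne_empty.2 hI.1) (fun h => h0 (hI.2 h))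
        rw [Int.cast_mul, abs_mul]
        have h5 : |((∏ r ∈ I, e r : ℤ) : ℝ)| = 1 := by
          rw [Int.cast_prod, Finset.abs_prod]
          refine Finset.prod_eq_one fun r hr => ?_
          rcases he r (hI.2 hr) with h6 | h6 <;> rw [h6] <;> norm_num
        rw [h5, one_mul]
        exact h4
      refine (Finset.sum_le_sum h3).trans ?_
      rw [Finset.sum_const, nsmul_eq_mul]
      refine mul_le_mul_of_nonneg_right ?_ hb0
      have h6 : (T.powerset.erase ∅).card ≤ 2 ^ R :=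
        (Finset.card_le_card (Finset.erase_subset _ _)).trans (by
          rw [Finset.card_powerset]
          exact Nat.pow_le_pow_right two_pos hT)
      exact_mod_cast h6
    have h7 := (abs_le.1 h2).1
    linarith
  have hup' : ((∑ s : ZMod p, ∏ r ∈ T, (1 + e r * quadraticChar (ZMod p) (s - r)) : ℤ) : ℝ) ≤ R * 2 ^ R := by
    exact_mod_cast hup
  have hq2 : √(p : ℝ) * √(p : ℝ) = p := Real.mul_self_sqrt (Nat.cast_nonneg p)
  have hbig : (2 : ℝ) ^ R * (22 * (R + 1)) < √(p : ℝ) := by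
    refine Real.lt_sqrt_of_sq_lt ?_
    have h1 : (2 ^ R * (22 * (R + 1))) ^ 2 < p := by omega
    exact_mod_cast h1
  have h8 : (p : ℝ) ≤ 2 ^ R * (20 * (R + 1) * √(p : ℝ) + R) + R * 2 ^ R := by linarith
  have h9 : (2 : ℝ) ^ R * (20 * (R + 1) * √(p : ℝ) + R) + R * 2 ^ R ≤ 2 ^ R * (22 * (R + 1)) * √(p : ℝ) := by
    have h10 : (R : ℝ) ≤ R * √(p : ℝ) := le_mul_of_one_le_right (Nat.cast_nonneg R) hq1
    have h11 : (0 : ℝ) ≤ √(p : ℝ) := by linarith
    have h12 : (20 : ℝ) * (R + 1) * √(p : ℝ) + R + R ≤ 22 * (R + 1) * √(p : ℝ) := by nlinarith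
    calc (2 : ℝ) ^ R * (20 * (R + 1) * √(p : ℝ) + R) + R * 2 ^ R
        = 2 ^ R * (20 * (R + 1) * √(p : ℝ) + R + R) := by ring
      _ ≤ 2 ^ R * (22 * (R + 1) * √(p : ℝ)) := mul_le_mul_of_nonneg_left h12 (by positivity)
      _ = _ := by ring
  have h13 : (2 : ℝ) ^ R * (22 * (R + 1)) * √(p : ℝ) < √(p : ℝ) * √(p : ℝ) :=
    mul_lt_mul_of_pos_right hbig (by linarith)
  linarith

/-- patterns of quadratic residues -/
theorem pattern (R : ℕ) : ∃ p0 : ℕ, ∀ (p : ℕ) [Fact p.Prime], p0 ≤ p → ∀ T : Finset (ZMod p), T.card ≤ R →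
    ∀ e : ZMod p → ℤ, (∀ r ∈ T, e r = 1 ∨ e r = -1) →
    ∃ s : ZMod p, ∀ r ∈ T, quadraticChar (ZMod p) (s - r) = e r := by
  refine ⟨(2 ^ R * (22 * (R + 1))) ^ 2 + 1, fun p _ hp T hT e he => ?_⟩
  classical
  have hRp : R < p := by
    have h1 : 1 ≤ 2 ^ R := Nat.one_le_two_pow
    have h2 : 22 * (R + 1) ≤ 2 ^ R * (22 * (R + 1)) := Nat.le_mul_of_pos_left _ (by omega)
    nlinarith
  obtain ⟨x0, hx0⟩ : ∃ x0 : ZMod p, x0 ∉ T := by
    by_contra hno
    push Not at hno
    have h1 : T = Finset.univ := Finset.eq_univ_of_forall hno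
    rw [h1, Finset.card_univ, ZMod.card] at hT
    omega
  obtain ⟨s, hs⟩ := pattern0 R hp (T.image fun r => r - x0) (Finset.card_image_le.trans hT) (by
    rw [Finset.mem_image]
    rintro ⟨r, hr, h1⟩
    rw [sub_eq_zero] at h1
    exact hx0 (h1 ▸ hr)) (fun r => e (r + x0)) (by
    intro r hr
    obtain ⟨r', hr', rfl⟩ := Finset.mem_image.1 hr
    rw [sub_add_cancel]
    exact he r' hr')
  refine ⟨s + x0, fun r hr => ?_⟩
  have h1 := hs (r - x0) (Finset.mem_image_of_mem _ hr)
  rw [sub_add_cancel] at h1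
  rw [← h1]
  congr 1
  ring

end Pool.Agent.H3.EJ
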