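import Pool.Agent.H3.EJ.St

/-!
# [H3 EJ Sb] Stepanov's bound over `F_p` for `y^2 = f(x)`: the count

`#{x : f(x)^((p-1)/2) = a} ≤ p/2 + 10 (m + 1) √p`, `a = 1, -1`, `deg f ≤ m`, `p ≥ 64 (m+1)^2`.
Parameters: `N = ⌊√p⌋`, `M = 2 N`, `J = N + 4 m + 4`, `D = (p - m)/2`.
-/

set_option autoImplicit false

namespace Pool.Agent.H3.EJ

open Polynomial Finset

variable {p : ℕ} [Fact p.Prime]

private theorem der_X (u : (ZMod p)[X]) (j l : ℕ) :
    derivative^[l] (u * X ^ (j * p)) = derivative^[l] u * X ^ (j * p) := by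
  induction l with
  | zero => rfl
  | succ l ih =>
    rw [Function.iterate_succ_apply', ih, Function.iterate_succ_apply', derivative_mul]
    have h1 : derivative (X ^ (j * p) : (ZMod p)[X]) = 0 := by
      rw [derivative_X_pow]
      simp
    rw [h1, mul_zero, add_zero]

theorem st_bound {f : (ZMod p)[X]} (hp2 : p ≠ 2) (hf0 : f.coeff 0 ≠ 0)
    (hsq : ∀ (c : ZMod p) (h : (ZMod p)[X]), f ≠ C c * h ^ 2) (m D J M : ℕ) (hm : f.natDegree ≤ m)
    (hD : 2 * D + m ≤ p) (hM : M ≤ p) (hM0 : 0 < M) (hcount : M * (D + J + M * m) < 2 * J * D) (a : ZMod p) :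
    M * (Finset.univ.filter fun x : ZMod p => f.eval x ^ ((p - 1) / 2) = a).card ≤
      M * m + D + (p - 1) / 2 * m + (J - 1) * p := by
  classical
  have hp : p.Prime := Fact.out
  have hp3 : 3 ≤ p := by
    have := hp.two_le
    omega
  have hf : f ≠ 0 := by
    rintro rfl
    exact hf0 (by simp)
  set n := (p - 1) / 2 with hn
  have hn2 : 2 * n + 1 = p := by
    have := hp.eq_two_or_odd
    omega
  have hn1 : 1 ≤ n := by omega
  obtain ⟨r, s, hr, hs, ⟨j0, hj0⟩, hE⟩ := st_exist f ((2 : ZMod p)⁻¹) a m D J M hm hcount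
  -- the auxiliary polynomial
  set P : (ZMod p)[X] := ∑ j : Fin J, (f ^ M * 1 * r j + f ^ M * f ^ n * s j) * X ^ ((j : ℕ) * p) with hP
  have hPe : P = f ^ M * ∑ j : Fin J, (r j + s j * f ^ n) * X ^ ((j : ℕ) * p) := by
    rw [hP, Finset.mul_sum]
    refine Finset.sum_congr rfl fun j _ => ?_
    ring
  have hP0 : P ≠ 0 := by
    rw [hPe]
    refine mul_ne_zero (pow_ne_zero _ hf) fun h => ?_
    have h1 := st_zero hp2 hf0 hsq (by omega) r s hr hs h j0
    rcases hj0 with h2 | h2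
    · exact h2 h1.1
    · exact h2 h1.2
  have hw1 : f * derivative (1 : (ZMod p)[X]) = - C (0 : ZMod p) * derivative f * 1 := by simp
  have h2ne : (2 : ZMod p) ≠ 0 := by
    intro h
    have h1 : ((2 : ℕ) : ZMod p) = 0 := by exact_mod_cast h
    rw [ZMod.natCast_eq_zero_iff] at h1
    have := Nat.le_of_dvd two_pos h1
    omega
  have hnz : (n : ZMod p) = - (2 : ZMod p)⁻¹ := by
    have h1 : (2 : ZMod p) * n + 1 = 0 := by
      have h2 : ((2 * n + 1 : ℕ) : ZMod p) = ((p : ℕ) : ZMod p) := by rw [hn2]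
      rw [ZMod.natCast_self] at h2
      exact_mod_cast h2
    field_simp
    linear_combination h1
  have hw2 : f * derivative (f ^ n) = - C ((2 : ZMod p)⁻¹) * derivative f * f ^ n := by
    obtain ⟨k, hk⟩ : ∃ k, n = k + 1 := ⟨n - 1, by omega⟩
    rw [← C_neg, ← hnz, hk, derivative_pow_succ]
    have e : (C ((k + 1 : ℕ) : ZMod p) : (ZMod p)[X]) = C ((k : ZMod p) + 1) := by push_cast; rfl
    rw [e, pow_succ]
    ring
  have hroot : ∀ x : ZMod p, f.eval x ^ n = a → ∀ l < M, (derivative^[l] P).IsRoot x := by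
    intro x hx l hl
    rw [IsRoot, hP, iterate_derivative_sum, eval_finsetSum]
    have h1 : ∀ j : Fin J, (derivative^[l] ((f ^ M * 1 * r j + f ^ M * f ^ n * s j) * X ^ ((j : ℕ) * p))).eval x =
        (f.eval x) ^ (M - l) *
          ((opL f 0 M l (r j) + C a * opL f (2 : ZMod p)⁻¹ M l (s j)) * X ^ (j : ℕ)).eval x := by
      intro j
      rw [der_X, iterate_map_add, iter_der f 1 0 hw1 M (r j) l hl.le,
        iter_der f (f ^ n) (2 : ZMod p)⁻¹ hw2 M (s j) l hl.le]
      simp only [eval_mul, eval_add, eval_pow, eval_X, eval_C, eval_one]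
      rw [hx, mul_comm (j : ℕ) p, pow_mul, ZMod.pow_card]
      ring
    rw [Finset.sum_congr rfl fun j _ => h1 j, ← Finset.mul_sum, ← eval_finsetSum, hE l hl]
    simp
  have hmult : ∀ x ∈ Finset.univ.filter (fun x : ZMod p => f.eval x ^ n = a), M ≤ P.roots.count x := by
    intro x hx
    rw [count_roots]
    have h1 := lt_rootMultiplicity_of_isRoot_iterate_derivative_of_mem_nonZeroDivisors' (n := M - 1) hP0
      (t := x) (fun l hl => hroot x (Finset.mem_filter.1 hx).2 l (by omega)) (fun l hl hl0 => by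
        refine mem_nonZeroDivisors_of_ne_zero fun h => ?_
        rw [ZMod.natCast_eq_zero_iff] at h
        have := Nat.le_of_dvd (Nat.pos_of_ne_zero hl0) h
        omega)
    omega
  have h1 : M * (Finset.univ.filter fun x : ZMod p => f.eval x ^ n = a).card ≤ P.natDegree := by
    calc M * (Finset.univ.filter fun x : ZMod p => f.eval x ^ n = a).card
        = ∑ x ∈ Finset.univ.filter (fun x : ZMod p => f.eval x ^ n = a), M := by
          rw [Finset.sum_const, smul_eq_mul, mul_comm]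
      _ ≤ ∑ x ∈ Finset.univ.filter (fun x : ZMod p => f.eval x ^ n = a), P.roots.count x :=
          Finset.sum_le_sum hmult
      _ ≤ ∑ x : ZMod p, P.roots.count x :=
          Finset.sum_le_sum_of_subset_of_nonneg (Finset.filter_subset _ _) fun _ _ _ => Nat.zero_le _
      _ = Multiset.card P.roots := Multiset.sum_count_eq_card fun _ _ => Finset.mem_univ _
      _ ≤ P.natDegree := card_roots' P
  refine h1.trans ?_
  rw [hPe]
  have hpow : ∀ k : ℕ, (f ^ k).natDegree ≤ k * m := fun k =>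
    natDegree_pow_le.trans (Nat.mul_le_mul_left k hm)
  have hnat : ∀ u : (ZMod p)[X], u ∈ degreeLT (ZMod p) D → u.natDegree ≤ D := by
    intro u hu
    by_cases hu0 : u = 0
    · simp [hu0]
    · rw [mem_degreeLT, ← natDegree_lt_iff_degree_lt hu0] at hu
      omega
  have h2 : (∑ j : Fin J, (r j + s j * f ^ n) * X ^ ((j : ℕ) * p)).natDegree ≤ D + n * m + (J - 1) * p := by
    refine natDegree_sum_le_of_forall_le _ _ fun j _ => ?_
    refine natDegree_mul_le.trans ?_
    have h3 : (r j + s j * f ^ n).natDegree ≤ D + n * m := by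
      refine (natDegree_add_le _ _).trans (max_le ((hnat _ (hr j)).trans (Nat.le_add_right _ _)) ?_)
      exact natDegree_mul_le.trans (Nat.add_le_add (hnat _ (hs j)) (hpow n))
    have h4 : (X ^ ((j : ℕ) * p) : (ZMod p)[X]).natDegree ≤ (J - 1) * p := by
      rw [natDegree_X_pow]
      refine Nat.mul_le_mul_right p ?_
      have := j.2
      omega
    exact Nat.add_le_add h3 h4
  refine natDegree_mul_le.trans ((Nat.add_le_add (hpow M) h2).trans ?_)
  omega

theorem stepanov (m : ℕ) (hp : 64 * (m + 1) ^ 2 ≤ p) {f : (ZMod p)[X]} (hf0 : f.coeff 0 ≠ 0)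
    (hsq : ∀ (c : ZMod p) (h : (ZMod p)[X]), f ≠ C c * h ^ 2) (hm : f.natDegree ≤ m) (a : ZMod p) :
    ((Finset.univ.filter fun x : ZMod p => f.eval x ^ ((p - 1) / 2) = a).card : ℝ) ≤
      p / 2 + 10 * (m + 1) * √(p : ℝ) := by
  obtain ⟨N, hN⟩ : ∃ N, N = Nat.sqrt p := ⟨_, rfl⟩
  have hN1 : N * N ≤ p := by rw [hN]; exact Nat.sqrt_le p
  have hN2 : p < (N + 1) * (N + 1) := by rw [hN]; exact Nat.lt_succ_sqrt p
  have hN8 : 8 * (m + 1) ≤ N := by
    rw [hN, Nat.le_sqrt]
    calc 8 * (m + 1) * (8 * (m + 1)) = 64 * (m + 1) ^ 2 := by ring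
      _ ≤ p := hp
  have hmp : 64 * (m + 1) ≤ p := by nlinarith
  have hp2 : p ≠ 2 := by omega
  obtain ⟨D, hDd⟩ : ∃ D, D = (p - m) / 2 := ⟨_, rfl⟩
  have hD1 : 2 * D + m ≤ p := by omega
  have hD2 : p ≤ 2 * D + m + 1 := by omega
  have hcount : 2 * N * (D + (N + (4 * m + 4)) + 2 * N * m) < 2 * (N + (4 * m + 4)) * D := by
    have h1 : N * (N + (4 * m + 4) + 2 * N * m) < (4 * m + 4) * D := by
      have h2 : (2 * m + 2) * p ≤ (2 * m + 2) * (2 * D + m + 1) := Nat.mul_le_mul_left _ hD2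
      have h3 : 8 * (m + 1) * N ≤ p := (Nat.mul_le_mul_right N hN8).trans hN1
      have h4 : 8 * (m + 1) * (8 * (m + 1)) ≤ 8 * (m + 1) * N := Nat.mul_le_mul_left _ hN8
      nlinarith
    nlinarith
  have h1 := st_bound hp2 hf0 hsq m D (N + (4 * m + 4)) (2 * N) hm hD1 (by nlinarith) (by omega) hcount a
  generalize (Finset.univ.filter fun x : ZMod p => f.eval x ^ ((p - 1) / 2) = a).card = S at h1 ⊢
  have hNr : (8 : ℝ) * (m + 1) ≤ N := by exact_mod_cast hN8
  have hq0 : 0 ≤ √(p : ℝ) := Real.sqrt_nonneg _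
  have hq2 : √(p : ℝ) * √(p : ℝ) = p := Real.mul_self_sqrt (Nat.cast_nonneg p)
  have hm0 : (0 : ℝ) ≤ m := Nat.cast_nonneg m
  have hnq : (N : ℝ) ≤ √(p : ℝ) := by
    refine Real.le_sqrt_of_sq_le ?_
    rw [sq]
    exact_mod_cast hN1
  have hqn : √(p : ℝ) ≤ N + 1 := by
    rw [Real.sqrt_le_iff]
    refine ⟨by positivity, ?_⟩
    rw [sq]
    exact_mod_cast hN2.le
  have h2 : (2 * N * S : ℝ) ≤ 2 * N * m + p / 2 + p / 2 * m + (N + 4 * m + 3) * p := by
    have h3 : 2 * (2 * N * S) ≤ 2 * (2 * N * m) + 2 * D + (p - 1) / 2 * 2 * m + 2 * ((N + (4 * m + 4) - 1) * p) := by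
      nlinarith
    have h4 : (p - 1) / 2 * 2 ≤ p := by omega
    have h5 : (p - 1) / 2 * 2 * m ≤ p * m := Nat.mul_le_mul_right m h4
    have h6 : N + (4 * m + 4) - 1 = N + 4 * m + 3 := by omega
    rw [h6] at h3
    have h7 : 2 * (2 * N * S) ≤ 2 * (2 * N * m) + p + p * m + 2 * ((N + 4 * m + 3) * p) := by omega
    have h8 : (2 * (2 * N * S) : ℝ) ≤ 2 * (2 * N * m) + p + p * m + 2 * ((N + 4 * m + 3) * p) := by
      exact_mod_cast h7
    linarith
  set q := √(p : ℝ) with hq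
  have hN0 : (0 : ℝ) < N := by linarith
  have h3 : (2 * N : ℝ) * S ≤ 2 * N * (p / 2 + 10 * (m + 1) * q) := by
    have h4 : q * q ≤ 2 * N * q := by
      refine mul_le_mul_of_nonneg_right ?_ hq0
      linarith
    have h5 : (1 : ℝ) ≤ q := by linarith
    have h6 : (2 * N * m : ℝ) ≤ 2 * m * (N * q) := by nlinarith [mul_nonneg hm0 hN0.le]
    have h7 : (7 / 2 + 9 / 2 * m : ℝ) * (q * q) ≤ (7 / 2 + 9 / 2 * m) * (2 * N * q) :=
      mul_le_mul_of_nonneg_left h4 (by linarith)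
    have h8 : (0 : ℝ) ≤ N * q := mul_nonneg hN0.le hq0
    have h9 : (0 : ℝ) ≤ m * (N * q) := mul_nonneg hm0 h8
    rw [← hq2] at h2 ⊢
    nlinarith
  exact le_of_mul_le_mul_left h3 (by linarith)

end Pool.Agent.H3.EJ
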