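import Mathlib

/-!
# [H3 EJ St] Stepanov's bound over `F_p` for `y^2 = f(x)`, by ordinary derivatives

`p` odd, `f` not a constant times a square, `f(0) ≠ 0`, `g = f^((p-1)/2)`. Auxiliary polynomial `P = f^M ∑_(j<J) (r_j + g s_j) X^(jp)`,
`deg r_j, deg s_j < D`, `2 D + deg f ≤ p`, with all derivatives of order `< M` zero at the points with `g(x) = a`. `st_core`: `P ≠ 0`. `iter_der`: the derivatives.
-/

set_option autoImplicit false

namespace Pool.Agent.H3.EJ

open Polynomial Finset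

variable {p : ℕ} [Fact p.Prime]

theorem st_core {f r s : (ZMod p)[X]} {D : ℕ} (hp2 : p ≠ 2) (hf0 : f.coeff 0 ≠ 0)
    (hsq : ∀ (c : ZMod p) (h : (ZMod p)[X]), f ≠ C c * h ^ 2)
    (hD : 2 * D + f.natDegree ≤ p) (hr : r ∈ degreeLT (ZMod p) D) (hs : s ∈ degreeLT (ZMod p) D)
    (h : X ^ p ∣ r + s * f ^ ((p - 1) / 2)) : r = 0 ∧ s = 0 := by
  have hp : p.Prime := Fact.out
  have hodd : (p - 1) / 2 * 2 + 1 = p := by
    have := hp.eq_two_or_odd
    have := hp.two_le
    omega
  have hf : f ≠ 0 := by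
    rintro rfl
    exact hf0 (by simp)
  -- `X^p` divides `f^p - C (f 0)^p`
  have h1 : X ^ p ∣ f ^ p - C (f.coeff 0) ^ p := by
    rw [← sub_pow_char]
    exact pow_dvd_pow_of_dvd (X_dvd_sub_C) p
  have h2 : X ^ p ∣ r ^ 2 * f - s ^ 2 * C (f.coeff 0 ^ p) := by
    have e : r ^ 2 * f - s ^ 2 * C (f.coeff 0 ^ p) =
        (r + s * f ^ ((p - 1) / 2)) * ((r - s * f ^ ((p - 1) / 2)) * f) +
          (f ^ p - C (f.coeff 0) ^ p) * s ^ 2 := by
      have e1 : f ^ p = f ^ ((p - 1) / 2) * f ^ ((p - 1) / 2) * f := by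
        calc f ^ p = f ^ ((p - 1) / 2 * 2 + 1) := by rw [hodd]
          _ = _ := by rw [pow_succ, mul_two, pow_add]
      rw [e1, C_pow]
      ring
    rw [e]
    exact dvd_add (Dvd.dvd.mul_right h _) (Dvd.dvd.mul_right h1 _)
  have hc : f.coeff 0 ^ p ≠ 0 := pow_ne_zero _ hf0
  have h3 : r ^ 2 * f - s ^ 2 * C (f.coeff 0 ^ p) = 0 := by
    by_cases hDz : D = 0
    · subst hDz
      rw [mem_degreeLT] at hr hs
      have e1 : r = 0 := by
        rw [← degree_eq_bot]
        exact Nat.WithBot.lt_zero_iff.1 (by simpa using hr)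
      have e2 : s = 0 := by
        rw [← degree_eq_bot]
        exact Nat.WithBot.lt_zero_iff.1 (by simpa using hs)
      rw [e1, e2]
      simp
    have hrd : r.natDegree ≤ D - 1 := by
      by_cases hr0 : r = 0
      · simp [hr0]
      · rw [mem_degreeLT, ← natDegree_lt_iff_degree_lt hr0] at hr
        omega
    have hsd : s.natDegree ≤ D - 1 := by
      by_cases hs0 : s = 0
      · simp [hs0]
      · rw [mem_degreeLT, ← natDegree_lt_iff_degree_lt hs0] at hs
        omega
    refine eq_zero_of_dvd_of_natDegree_lt h2 ?_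
    rw [natDegree_X_pow]
    have e1 : (r ^ 2 * f).natDegree ≤ 2 * (D - 1) + f.natDegree :=
      natDegree_mul_le.trans (Nat.add_le_add_right (natDegree_pow_le.trans (Nat.mul_le_mul_left 2 hrd)) _)
    have e2 : (s ^ 2 * C (f.coeff 0 ^ p)).natDegree ≤ 2 * (D - 1) :=
      (natDegree_mul_C_le _ _).trans (natDegree_pow_le.trans (Nat.mul_le_mul_left 2 hsd))
    have e3 := natDegree_sub_le (r ^ 2 * f) (s ^ 2 * C (f.coeff 0 ^ p))
    have e4 : max (r ^ 2 * f).natDegree (s ^ 2 * C (f.coeff 0 ^ p)).natDegree ≤ 2 * (D - 1) + f.natDegree :=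
      max_le e1 (e2.trans (Nat.le_add_right _ _))
    omega
  have h4 : r ^ 2 * f = s ^ 2 * C (f.coeff 0 ^ p) := sub_eq_zero.1 h3
  by_cases hr0 : r = 0
  · refine ⟨hr0, ?_⟩
    rw [hr0, zero_pow two_ne_zero, zero_mul] at h4
    have h5 := mul_eq_zero.1 h4.symm
    rcases h5 with h5 | h5
    · exact pow_eq_zero_iff two_ne_zero |>.1 h5
    · exact absurd (C_eq_zero.1 h5) hc
  · exfalso
    have h5 : r ^ 2 ∣ s ^ 2 := by
      have h6 : r ^ 2 ∣ s ^ 2 * C (f.coeff 0 ^ p) := ⟨f, h4.symm⟩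
      exact (isUnit_C.2 (isUnit_iff_ne_zero.2 hc)).dvd_mul_right.1 h6
    obtain ⟨w, hw⟩ := (IsIntegrallyClosed.pow_dvd_pow_iff two_ne_zero).1 h5
    refine hsq (f.coeff 0 ^ p) w ?_
    have hr2 : r ^ 2 ≠ 0 := pow_ne_zero _ hr0
    refine mul_left_cancel₀ hr2 ?_
    rw [h4, hw]
    ring

/-- the derivative of `f^a w u`, `f w' = - δ f' w` -/
noncomputable def opA (f : (ZMod p)[X]) (c : ZMod p) : (ZMod p)[X] →ₗ[ZMod p] (ZMod p)[X] :=
  LinearMap.mulLeft (ZMod p) (C c * derivative f) + (LinearMap.mulLeft (ZMod p) f).comp derivative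

theorem opA_apply (f : (ZMod p)[X]) (c : ZMod p) (u : (ZMod p)[X]) :
    opA f c u = C c * derivative f * u + f * derivative u := rfl

noncomputable def opL (f : (ZMod p)[X]) (δ : ZMod p) (M : ℕ) : ℕ → ((ZMod p)[X] →ₗ[ZMod p] (ZMod p)[X])
  | 0 => LinearMap.id
  | l + 1 => (opA f ((M : ZMod p) - l - δ)).comp (opL f δ M l)

theorem iter_der (f w : (ZMod p)[X]) (δ : ZMod p) (hw : f * derivative w = - C δ * derivative f * w)
    (M : ℕ) (u : (ZMod p)[X]) : ∀ l ≤ M, derivative^[l] (f ^ M * w * u) = f ^ (M - l) * w * opL f δ M l u := by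
  intro l
  induction l with
  | zero => intro _; simp [opL]
  | succ l ih =>
    intro hl
    rw [Function.iterate_succ_apply', ih (by omega)]
    show _ = f ^ (M - (l + 1)) * w * opA f ((M : ZMod p) - l - δ) (opL f δ M l u)
    rw [opA_apply]
    obtain ⟨n, hn⟩ : ∃ n, M = l + 1 + n := ⟨M - (l + 1), by omega⟩
    have e1 : M - l = n + 1 := by omega
    have e2 : M - (l + 1) = n := by omega
    have e3 : (M : ZMod p) - l - δ = (n + 1 : ℕ) - δ := by
      rw [hn]
      push_cast
      ring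
    rw [e1, e2, e3, derivative_mul, derivative_mul, derivative_pow_succ]
    generalize opL f δ M l u = v
    have e4 : f ^ (n + 1) * derivative w * v = f ^ n * (- C δ * derivative f * w) * v := by
      rw [← hw, pow_succ]
      ring
    rw [add_mul, e4, C_sub]
    have e5 : (C ((n + 1 : ℕ) : ZMod p) : (ZMod p)[X]) = C ((n : ZMod p) + 1) := by push_cast; rfl
    rw [e5]
    ring

theorem opL_mem (f : (ZMod p)[X]) (δ : ZMod p) (M m : ℕ) (hm : f.natDegree ≤ m) {D : ℕ} {u : (ZMod p)[X]}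
    (hu : u ∈ degreeLT (ZMod p) D) (l : ℕ) : opL f δ M l u ∈ degreeLT (ZMod p) (D + l * m) := by
  induction l with
  | zero => simpa [opL] using hu
  | succ l ih =>
    show opA f ((M : ZMod p) - l - δ) (opL f δ M l u) ∈ _
    rw [opA_apply]
    generalize opL f δ M l u = v at ih ⊢
    generalize ((M : ZMod p) - l - δ) = c
    have hfd : f.degree ≤ m := degree_le_of_natDegree_le hm
    have hfd' : (C c * derivative f).degree ≤ m := by
      refine (degree_mul_le _ _).trans ?_
      have h1 : (C c : (ZMod p)[X]).degree ≤ 0 := degree_C_le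
      have h2 : (derivative f).degree ≤ m := (degree_derivative_le).trans hfd
      calc (C c : (ZMod p)[X]).degree + (derivative f).degree ≤ 0 + (m : WithBot ℕ) := add_le_add h1 h2
        _ = m := zero_add _
    rw [mem_degreeLT] at ih
    have hv' : (derivative v).degree ≤ v.degree := degree_derivative_le
    refine add_mem ?_ ?_
    all_goals
      rw [mem_degreeLT]
      refine (degree_mul_le _ _).trans_lt ?_
      have e : ((D + (l + 1) * m : ℕ) : WithBot ℕ) = (m : WithBot ℕ) + ((D + l * m : ℕ) : WithBot ℕ) := by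
        rw [← Nat.cast_add]
        congr 1
        ring
      rw [e]
    · by_cases hv : v = 0
      · rw [hv, degree_zero, WithBot.add_bot]
        exact WithBot.bot_lt_coe _
      · refine (add_le_add_left hfd' _).trans_lt ?_
        exact WithBot.add_lt_add_left (WithBot.natCast_ne_bot m) ih
    · refine (add_le_add_left hfd _).trans_lt ?_
      exact WithBot.add_lt_add_left (WithBot.natCast_ne_bot m) (hv'.trans_lt ih)

/-- nonvanishing of the auxiliary polynomial -/
theorem st_zero {f : (ZMod p)[X]} {D J : ℕ} (hp2 : p ≠ 2) (hf0 : f.coeff 0 ≠ 0)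
    (hsq : ∀ (c : ZMod p) (h : (ZMod p)[X]), f ≠ C c * h ^ 2)
    (hD : 2 * D + f.natDegree ≤ p) (r s : Fin J → (ZMod p)[X])
    (hr : ∀ j, r j ∈ degreeLT (ZMod p) D) (hs : ∀ j, s j ∈ degreeLT (ZMod p) D)
    (h : ∑ j : Fin J, (r j + s j * f ^ ((p - 1) / 2)) * X ^ ((j : ℕ) * p) = 0) (j : Fin J) :
    r j = 0 ∧ s j = 0 := by
  have key : ∀ k : ℕ, ∀ hk : k < J, r ⟨k, hk⟩ = 0 ∧ s ⟨k, hk⟩ = 0 := by
    intro k
    induction k using Nat.strong_induction_on with
    | _ k ih =>
      intro hk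
      refine st_core hp2 hf0 hsq hD (hr _) (hs _) ?_
      have h1 : X ^ ((k + 1) * p) ∣
          (r ⟨k, hk⟩ + s ⟨k, hk⟩ * f ^ ((p - 1) / 2)) * X ^ (k * p) := by
        have h2 : (r ⟨k, hk⟩ + s ⟨k, hk⟩ * f ^ ((p - 1) / 2)) * X ^ (k * p) =
            - ∑ j ∈ Finset.univ.erase (⟨k, hk⟩ : Fin J),
              (r j + s j * f ^ ((p - 1) / 2)) * X ^ ((j : ℕ) * p) := by
          rw [eq_neg_iff_add_eq_zero, ← h]
          exact Finset.add_sum_erase _
            (fun j : Fin J => (r j + s j * f ^ ((p - 1) / 2)) * X ^ ((j : ℕ) * p)) (Finset.mem_univ _)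
        rw [h2, dvd_neg]
        refine Finset.dvd_sum fun j hj => ?_
        have hjk : (j : ℕ) ≠ k := by
          intro e
          exact (Finset.mem_erase.1 hj).1 (Fin.ext e)
        rcases lt_or_gt_of_ne hjk with h3 | h3
        · obtain ⟨h4, h5⟩ := ih j h3 j.2
          have h4' : r j = 0 := h4
          have h5' : s j = 0 := h5
          rw [h4', h5']
          simp
        · exact Dvd.dvd.mul_left (pow_dvd_pow X (Nat.mul_le_mul_right p h3)) _
      have e : (k + 1) * p = p + k * p := by ring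
      rw [e, pow_add] at h1
      exact (mul_dvd_mul_iff_right (pow_ne_zero _ X_ne_zero)).1 h1
  exact key j j.2

theorem st_exist (f : (ZMod p)[X]) (δ a : ZMod p) (m D J M : ℕ) (hm : f.natDegree ≤ m)
    (hcount : M * (D + J + M * m) < 2 * J * D) :
    ∃ r s : Fin J → (ZMod p)[X], (∀ j, r j ∈ degreeLT (ZMod p) D) ∧ (∀ j, s j ∈ degreeLT (ZMod p) D) ∧
      (∃ j, r j ≠ 0 ∨ s j ≠ 0) ∧ ∀ l < M, ∑ j : Fin J, (opL f 0 M l (r j) + C a * opL f δ M l (s j)) * X ^ (j : ℕ) = 0 := by
  classical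
  let V := (Fin J → degreeLT (ZMod p) D) × (Fin J → degreeLT (ZMod p) D)
  let W := Fin M → Fin (D + J + M * m) → ZMod p
  let E : ℕ → V →ₗ[ZMod p] (ZMod p)[X] := fun l =>
    ∑ j : Fin J, (LinearMap.mulRight (ZMod p) (X ^ (j : ℕ) : (ZMod p)[X])).comp
      ((opL f 0 M l).comp ((degreeLT (ZMod p) D).subtype.comp ((LinearMap.proj j).comp (LinearMap.fst _ _ _))) +
        (LinearMap.mulLeft (ZMod p) (C a : (ZMod p)[X])).comp
          ((opL f δ M l).comp ((degreeLT (ZMod p) D).subtype.comp ((LinearMap.proj j).comp (LinearMap.snd _ _ _)))))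
  have hE : ∀ l (v : V), E l v = ∑ j : Fin J, (opL f 0 M l (v.1 j : (ZMod p)[X]) +
      C a * opL f δ M l (v.2 j : (ZMod p)[X])) * X ^ (j : ℕ) := by
    intro l v
    simp only [E, LinearMap.sum_apply]
    rfl
  let Ψ : V →ₗ[ZMod p] W := LinearMap.pi fun l => LinearMap.pi fun i => (lcoeff (ZMod p) i).comp (E l)
  have hfV : Module.finrank (ZMod p) V = J * D + J * D := by
    rw [Module.finrank_prod, Module.finrank_pi_fintype]
    have h1 : Module.finrank (ZMod p) (degreeLT (ZMod p) D) = D := by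
      rw [(degreeLTEquiv (ZMod p) D).finrank_eq, Module.finrank_fin_fun]
    simp [h1]
  have hfW : Module.finrank (ZMod p) W = M * (D + J + M * m) := by
    rw [Module.finrank_pi_fintype]
    simp
  have hker : LinearMap.ker Ψ ≠ ⊥ := by
    have : FiniteDimensional (ZMod p) (degreeLT (ZMod p) D) :=
      Module.Finite.equiv (degreeLTEquiv (ZMod p) D).symm
    refine LinearMap.ker_ne_bot_of_finrank_lt ?_
    rw [hfV, hfW]
    have e : 2 * J * D = J * D + J * D := by ring
    omega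
  obtain ⟨v, hv, hv0⟩ := (Submodule.ne_bot_iff _).1 hker
  refine ⟨fun j => v.1 j, fun j => v.2 j, fun j => (v.1 j).2, fun j => (v.2 j).2, ?_, ?_⟩
  · by_contra hno
    push Not at hno
    apply hv0
    refine Prod.ext ?_ ?_
    · funext j
      exact Subtype.ext (hno j).1
    · funext j
      exact Subtype.ext (hno j).2
  · intro l hl
    rw [← hE]
    have h1 : ∀ i < D + J + M * m, (E l v).coeff i = 0 := by
      intro i hi
      have h2 : Ψ v = 0 := hv
      exact congrFun (congrFun h2 ⟨l, hl⟩) ⟨i, hi⟩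
    have h3 : E l v ∈ degreeLT (ZMod p) (D + J + M * m) := by
      rw [hE]
      refine Submodule.sum_mem _ fun j _ => ?_
      have h4 : opL f 0 M l (v.1 j : (ZMod p)[X]) + C a * opL f δ M l (v.2 j : (ZMod p)[X]) ∈
          degreeLT (ZMod p) (D + l * m) := by
        refine add_mem (opL_mem f 0 M m hm (v.1 j).2 l) ?_
        rw [← smul_eq_C_mul]
        exact Submodule.smul_mem _ _ (opL_mem f δ M m hm (v.2 j).2 l)
      rw [mem_degreeLT] at h4 ⊢
      generalize opL f 0 M l (v.1 j : (ZMod p)[X]) + C a * opL f δ M l (v.2 j : (ZMod p)[X]) = w at h4 ⊢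
      rw [degree_mul, degree_X_pow]
      have h5 : l * m ≤ M * m := Nat.mul_le_mul_right m hl.le
      have h6 : ((D + l * m : ℕ) : WithBot ℕ) + ((j : ℕ) : WithBot ℕ) ≤ ((D + J + M * m : ℕ) : WithBot ℕ) := by
        rw [← Nat.cast_add, Nat.cast_le]
        have := j.2
        omega
      exact (WithBot.add_lt_add_right (WithBot.natCast_ne_bot _) h4).trans_le h6
    ext i
    rw [coeff_zero]
    by_cases hi : i < D + J + M * m
    · exact h1 i hi
    · rw [mem_degreeLT] at h3
      exact coeff_eq_zero_of_degree_lt (h3.trans_le (by rw [Nat.cast_le]; omega))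

end Pool.Agent.H3.EJ
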